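import Pool.Agent.helper32.TRI.Spec

set_option autoImplicit false

open Finset

namespace Pool.Agent.TRI

open Pool.Agent.EXC

theorem C5Y_wp {n : ℕ} (C : Matrix (Fin n) (Fin n) ℤ) [IsC C] (p q : (Fin n → ℤ) × (Fin n → ℤ))
    (h : WP C p q) : ip C q.1 q.2 = ip C p.1 p.2 := by
  induction h with
  | refl => rfl
  | tail _ h2 ih =>
    obtain ⟨i, rfl⟩ := h2
    rw [← ih]
    exact (f_RFL n C i _ _).1

theorem C5Y_sc (F : Type) [Field F] (a : Lm C4 F) (ha : Ex C4 a) (s : F)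
    (g : Lm C4 F ≃ₗ[F] Lm C4 F) (h : IsX C4 (s • a) 1 g) : IsX C4 a s g := by
  intro v
  rw [h v, ((f_XAU 4 C4 F a ((g4_EXF F).2.2.1 a ha).1).2.2.2 s).2 1 v, mul_one]

/-- the transvection -/
noncomputable def C5Y_T (F : Type) [Field F] (i j : Fin 4) (hij : i ≠ j) (t : F) :
    Matrix.SpecialLinearGroup (Fin 4) F :=
  ⟨Matrix.transvection i j t, Matrix.det_transvection_of_ne i j hij t⟩

theorem C5Y_pow (F : Type) [Field F] (g : Lm C4 F ≃ₗ[F] Lm C4 F)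
    (m : Matrix.SpecialLinearGroup (Fin 4) F) (h : Pool.Agent.EXA.Rm C4 ch3 g m) (N : ℕ) :
    Pool.Agent.EXA.Rm C4 ch3 (g ^ N) (m ^ N) := by
  have R := Pool.Agent.EXA.f_RMB 4 C4 F 1 th4 ch3 D4_IsA
  induction N with
  | zero => rw [pow_zero, pow_zero]; exact R.2.2.2
  | succ k ih => rw [pow_succ, pow_succ]; exact R.2.1 _ _ _ _ ih h

theorem C5Y_main (hM5A : M5A_stmt) (hM5B : M5B_stmt) (F : Type) [Field F] (y : EG C4 F) (s1 s2 : F)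
    (h1 : s1 ≠ 0) (h2 : s2 ≠ 0) (g h : Lm C4 F ≃ₗ[F] Lm C4 F)
    (hg : IsX C4 (E C4 (Pool.Agent.EXA.ro ch3 0 1)) (-s1) g)
    (hh : IsX C4 (E C4 (Pool.Agent.EXA.ro ch3 1 0)) s2 h)
    (hy : (y : Lm C4 F ≃ₗ[F] Lm C4 F) = g * h) : HO 5 2 y := by
  have R := Pool.Agent.EXA.f_RMB 4 C4 F 1 th4 ch3 D4_IsA
  have e1 : Pool.Agent.EXA.et 0 1 = -1 := by decide
  have e2 : Pool.Agent.EXA.et 1 0 = 1 := by decide
  have r1 : Pool.Agent.EXA.Rm C4 ch3 g (C5Y_T F 0 1 (by decide) s1) := by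
    refine R.1 0 1 s1 g _ (by decide) ?_ rfl
    have e : ((Pool.Agent.EXA.et 0 1 : ℤ) : F) * s1 = -s1 := by
      rw [e1]; push_cast; ring
    rw [e]; exact hg
  have r2 : Pool.Agent.EXA.Rm C4 ch3 h (C5Y_T F 1 0 (by decide) s2) := by
    refine R.1 1 0 s2 h _ (by decide) ?_ rfl
    have e : ((Pool.Agent.EXA.et 1 0 : ℤ) : F) * s2 = s2 := by
      rw [e2]; push_cast; ring
    rw [e]; exact hh
  have ry : Pool.Agent.EXA.Rm C4 ch3 (y : Lm C4 F ≃ₗ[F] Lm C4 F)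
      (C5Y_T F 0 1 (by decide) s1 * C5Y_T F 1 0 (by decide) s2) := by
    rw [hy]
    exact R.2.1 _ _ _ _ r1 r2
  obtain ⟨G1, G2, P, Z, hZ, hE⟩ := hM5A F s1 s2 h1 h2
    (C5Y_T F 0 1 (by decide) s1 * C5Y_T F 1 0 (by decide) s2) rfl
  obtain ⟨k1, hk1, q1⟩ := Pool.Agent.EXA.f_LIF 4 C4 F 1 th4 ch3 D4_IsA G1
  obtain ⟨k2, hk2, q2⟩ := Pool.Agent.EXA.f_LIF 4 C4 F 1 th4 ch3 D4_IsA G2
  obtain ⟨K1, hK1⟩ : ∃ K1 : EG C4 F, (K1 : Lm C4 F ≃ₗ[F] Lm C4 F) = k1 := ⟨⟨k1, hk1⟩, rfl⟩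
  obtain ⟨K2, hK2⟩ : ∃ K2 : EG C4 F, (K2 : Lm C4 F ≃ₗ[F] Lm C4 F) = k2 := ⟨⟨k2, hk2⟩, rfl⟩
  rw [← hK1] at q1
  rw [← hK2] at q2
  have rz : Pool.Agent.EXA.Rm C4 ch3
      ((K1 * y * K1⁻¹ * (K2 * y * K2⁻¹) : EG C4 F) : Lm C4 F ≃ₗ[F] Lm C4 F) (P⁻¹ * Z * P) := by
    rw [← hE]
    exact R.2.1 _ _ _ _ (R.2.1 _ _ _ _ (R.2.1 _ _ _ _ q1 ry) (R.2.2.1 _ _ q1))
      (R.2.1 _ _ _ _ (R.2.1 _ _ _ _ q2 ry) (R.2.2.1 _ _ q2))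
  refine ⟨![K1, K2], K1 * y * K1⁻¹ * (K2 * y * K2⁻¹), ?_, ?_⟩
  · refine Subgroup.mul_mem _ ?_ ?_
    · exact Subgroup.subset_closure ⟨0, rfl⟩
    · exact Subgroup.subset_closure ⟨1, rfl⟩
  · intro N hN
    have h3 := C5Y_pow F _ _ rz N
    have h4 : ((K1 * y * K1⁻¹ * (K2 * y * K2⁻¹) : EG C4 F) : Lm C4 F ≃ₗ[F] Lm C4 F) ^ N = 1 := by
      have h5 := congrArg (fun z : EG C4 F => (z : Lm C4 F ≃ₗ[F] Lm C4 F)) hN
      exact h5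
    rw [h4] at h3
    obtain ⟨c, hc⟩ := (Pool.Agent.EXA.f_IOI 4 C4 F 1 th4 ch3 D4_IsA).2 _ h3
    have h5 : (P⁻¹ * Z * P) ^ N = P⁻¹ * Z ^ N * P := by
      have h7 := conj_pow (i := N) (a := P⁻¹) (b := Z)
      rw [inv_inv] at h7
      exact h7
    have h6 : Z ^ N = P * (P⁻¹ * Z * P) ^ N * P⁻¹ := by
      rw [h5]; group
    refine hM5B F Z hZ N ⟨c, ?_⟩
    rw [h6, Matrix.SpecialLinearGroup.coe_mul, Matrix.SpecialLinearGroup.coe_mul, hc,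
      Matrix.mul_smul, Matrix.mul_one, Matrix.smul_mul, ← Matrix.SpecialLinearGroup.coe_mul,
      mul_inv_cancel, Matrix.SpecialLinearGroup.coe_one]

theorem C5Y (hPR4 : PR4_stmt) (hM5A : M5A_stmt) (hM5B : M5B_stmt) (hHC4 : HC4_stmt) : C5Y_stmt := by
  intro F _ a b y hT hY
  obtain ⟨j, hj, g0, hg0, κ, hκ, ha, hb⟩ := hPR4 F a b (-2) hT (by norm_num)
  have hbj : bt4 j = -th4 := eq_neg_of_ip_eq_neg_two th4_root (bt4_spec j).1 hj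
  rw [hbj] at hb
  have hr0 : ip C4 (sr 0) (sr 0) = 2 := ip_sr_self C4 0
  obtain ⟨β', hβ', hW⟩ := g4_NBR th4 (sr 0) (-th4) th4_root hr0 (neg_root C4 th4_root)
  have hβ : β' = -sr 0 := by
    apply eq_neg_of_ip_eq_neg_two hr0 hβ'
    have h1 := C5Y_wp C4 _ _ hW
    change ip C4 (sr 0) β' = ip C4 th4 (-th4) at h1
    rw [h1, ip_neg_right, th4_root]
  subst hβ
  obtain ⟨g1, hg1, s, s', hs, hs', e1, e2⟩ :=
    f_WPG 4 C4 F hb4 th4 (-th4) (sr 0) (-sr 0) th4_root (neg_root C4 th4_root) hW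
  have hρ : (sr 0 : Fin 4 → ℤ) = Pool.Agent.EXA.ro ch3 0 1 := by decide
  have hρ' : (-sr 0 : Fin 4 → ℤ) = Pool.Agent.EXA.ro ch3 1 0 := by decide
  rw [hρ] at e1
  rw [hρ'] at e2
  have hroot1 : ip C4 (Pool.Agent.EXA.ro ch3 0 1) (Pool.Agent.EXA.ro ch3 0 1) = 2 := by
    rw [← hρ]; exact hr0
  have hroot2 : ip C4 (Pool.Agent.EXA.ro ch3 1 0) (Pool.Agent.EXA.ro ch3 1 0) = 2 := by
    rw [← hρ']; exact neg_root C4 hr0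
  obtain ⟨g, h, hg, hh, rfl⟩ := hY
  have X := g4_EXF F
  have hExa : Ex C4 a := (g4_TPF F a b (-2) hT).1
  have hExb : Ex C4 b := (g4_TPF F a b (-2) hT).2.1
  obtain ⟨K, hK⟩ : ∃ K : EG C4 F, (K : Lm C4 F ≃ₗ[F] Lm C4 F) = g1 * g0 :=
    ⟨⟨g1 * g0, (GE C4 F).mul_mem hg1 hg0⟩, rfl⟩
  refine hHC4 (EG C4 F) 5 2 (g * h) K ?_
  have ka : (K : Lm C4 F ≃ₗ[F] Lm C4 F) a = (s : F) • (E C4 (Pool.Agent.EXA.ro ch3 0 1) : Lm C4 F) := by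
    rw [hK]
    change g1 (g0 a) = _
    rw [ha, e1]
  have kb : (K : Lm C4 F ≃ₗ[F] Lm C4 F) b =
      (κ * (s' : F)) • (E C4 (Pool.Agent.EXA.ro ch3 1 0) : Lm C4 F) := by
    rw [hK]
    change g1 (g0 b) = _
    rw [hb, map_smul, e2, smul_smul]
  have hsF : (s : F) ≠ 0 := by
    rcases hs with rfl | rfl <;> simp
  have hsF' : (s' : F) ≠ 0 := by
    rcases hs' with rfl | rfl <;> simp
  have xg := (X.2.2.1 a hExa).2.2.2.2.2.2.2.1 K K.2 1 g hg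
  have xh := (X.2.2.1 b hExb).2.2.2.2.2.2.2.1 K K.2 1 h hh
  rw [ka] at xg
  rw [kb] at xh
  have xg' := C5Y_sc F _ (X.2.1 _ hroot1) _ _ xg
  have xh' := C5Y_sc F _ (X.2.1 _ hroot2) _ _ xh
  have xg2 : IsX C4 (E C4 (Pool.Agent.EXA.ro ch3 0 1)) (-(-(s : F)))
      ((K : Lm C4 F ≃ₗ[F] Lm C4 F) * g * (K : Lm C4 F ≃ₗ[F] Lm C4 F)⁻¹) := by
    rw [neg_neg]; exact xg'
  refine C5Y_main hM5A hM5B F _ (-(s : F)) (κ * (s' : F)) (neg_ne_zero.2 hsF)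
    (mul_ne_zero hκ hsF') _ _ xg2 xh' ?_
  · have e : K * (g * h) * K⁻¹ = (K * g * K⁻¹) * (K * h * K⁻¹) := by group
    rw [e]
    rfl

end Pool.Agent.TRI
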